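import Pool.Agent.helper59.GF.Spec

set_option autoImplicit false

/-!
# gf:LDI (MP_06d6be_co): the flats of the local block see different order types
-/

namespace Pool.Agent.GF

open Filter Topology

/-- The sums for the window `n` and the moving set `i`, in the limit `δ → 0+`. -/
private lemma LDI_key (hTRC : TRC_stmt) (hLAM : LAM_stmt) {p m : ℕ}
    (X : Fin (p + 1) → Fin m → ℝ) (dig : ℕ → Fin (p + 1) → Fin m) (T : ℕ → ℝ) (ε : ℝ)
    (hT : ∀ n, T n = -∑ q, lam p q * X q (dig n q)) (n : ℕ) (i : Fin m)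
    (I : Fin (p + 2) → Fin (p + 2) × Fin m)
    (hI : ∀ r, I r = (r, if h : (r : ℕ) < p + 1 then dig n ⟨r, h⟩ else i))
    (t : Fin (m ^ (p + 1)) × Fin m) :
    Tendsto (fun δ => ∑ r, mu p (nd p m δ ∘ I) r * xiL X T ε t (I r)) (𝓝[>] 0)
      (𝓝 (mu p (cen p) (Fin.last (p + 1)) *
        (T n - T t.1 - ε * (t.2 : ℕ) + ε * ((i : ℕ) + 1 / 2)))) := by
  obtain ⟨hpos, -, -⟩ := hLAM p
  have h1 := (hTRC p m I (fun r => by rw [hI r])).1
  have h2 : Tendsto (fun δ => ∑ r, mu p (nd p m δ ∘ I) r * xiL X T ε t (I r)) (𝓝[>] 0)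
      (𝓝 (∑ r, mu p (cen p) r * xiL X T ε t (I r))) :=
    tendsto_finsetSum _ (fun r _ => (h1 r).mul_const _)
  have h3 : ∑ r, mu p (cen p) r * xiL X T ε t (I r) =
      mu p (cen p) (Fin.last (p + 1)) *
        (T n - T t.1 - ε * (t.2 : ℕ) + ε * ((i : ℕ) + 1 / 2)) := by
    rw [Fin.sum_univ_castSucc]
    have h4 : xiL X T ε t (I (Fin.last (p + 1))) =
        -al T ε t.1 t.2 + ε * ((i : ℕ) + 1 / 2) := by
      rw [hI]
      simp [xiL]
    have h5 : ∀ q : Fin (p + 1), xiL X T ε t (I q.castSucc) = X q (dig n q) := by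
      intro q
      rw [hI]
      have hq : (q : ℕ) < p + 1 := q.2
      simp [xiL, hq]
    have h6 : ∀ q : Fin (p + 1), mu p (cen p) q.castSucc =
        -(lam p q) * mu p (cen p) (Fin.last (p + 1)) := by
      intro q
      rw [lam, neg_div, neg_neg, div_mul_cancel₀ _ hpos.ne']
    rw [h4]
    have h7 : ∑ q : Fin (p + 1), mu p (cen p) q.castSucc * xiL X T ε t (I q.castSucc) =
        mu p (cen p) (Fin.last (p + 1)) * T n := by
      rw [hT n, ← Finset.sum_neg_distrib, Finset.mul_sum]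
      refine Finset.sum_congr rfl (fun q _ => ?_)
      rw [h5 q, h6 q]
      ring
    rw [h7, al]
    ring
  rw [h3] at h2
  exact h2

theorem LDI (hTRC : TRC_stmt) (hLAM : LAM_stmt) : LDI_stmt := by
  intro p m X dig T ε hX hε hlt
  obtain ⟨-, -, hT, -, -⟩ := hX
  obtain ⟨hpos, -, -⟩ := hLAM p
  -- the ordered pairs
  have main : ∀ t t' : Fin (m ^ (p + 1)) × Fin m,
      ((t.1 : ℕ) < t'.1 ∨ (t.1 = t'.1 ∧ (t.2 : ℕ) < t'.2)) →
      ∀ᶠ δ in 𝓝[>] (0 : ℝ), ∃ I : Fin (p + 2) → Fin (p + 2) × Fin m,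
        Function.Injective I ∧
        (∑ r, mu p (nd p m δ ∘ I) r * xiL X T ε t (I r)) *
          (∑ r, mu p (nd p m δ ∘ I) r * xiL X T ε t' (I r)) < 0 := by
    intro t t' htt
    have hm : 0 < m := lt_of_le_of_lt (Nat.zero_le _) t.2.2
    -- it is enough to give the moving set
    have suff : ∀ i : Fin m,
        0 < T t.1 - T t.1 - ε * (t.2 : ℕ) + ε * ((i : ℕ) + 1 / 2) →
        T t.1 - T t'.1 - ε * (t'.2 : ℕ) + ε * ((i : ℕ) + 1 / 2) < 0 →
        ∀ᶠ δ in 𝓝[>] (0 : ℝ), ∃ I : Fin (p + 2) → Fin (p + 2) × Fin m,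
        Function.Injective I ∧
        (∑ r, mu p (nd p m δ ∘ I) r * xiL X T ε t (I r)) *
          (∑ r, mu p (nd p m δ ∘ I) r * xiL X T ε t' (I r)) < 0 := by
      intro i hi hi'
      set I : Fin (p + 2) → Fin (p + 2) × Fin m := fun r =>
        (r, if h : (r : ℕ) < p + 1 then dig t.1 ⟨r, h⟩ else i) with hI
      have hinj : Function.Injective I := by
        intro a b hab
        simpa [hI] using congrArg Prod.fst hab
      have k1 := LDI_key hTRC hLAM X dig T ε hT t.1 i I (fun r => rfl) t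
      have k2 := LDI_key hTRC hLAM X dig T ε hT t.1 i I (fun r => rfl) t'
      have k3 := k1.mul k2
      have k4 : mu p (cen p) (Fin.last (p + 1)) *
          (T t.1 - T t.1 - ε * (t.2 : ℕ) + ε * ((i : ℕ) + 1 / 2)) *
          (mu p (cen p) (Fin.last (p + 1)) *
          (T t.1 - T t'.1 - ε * (t'.2 : ℕ) + ε * ((i : ℕ) + 1 / 2))) < 0 :=
        mul_neg_of_pos_of_neg (mul_pos hpos hi) (mul_neg_of_pos_of_neg hpos hi')
      filter_upwards [k3.eventually (gt_mem_nhds k4)] with δ hδ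
      exact ⟨I, hinj, hδ⟩
    rcases htt with h | ⟨h, h'⟩
    · have hb : ((t.2 : ℕ) : ℝ) ≤ (m : ℝ) - 1 := by
        have h8 : (t.2 : ℕ) + 1 ≤ m := t.2.2
        have h9 : (((t.2 : ℕ) + 1 : ℕ) : ℝ) ≤ (m : ℝ) := by exact_mod_cast h8
        push_cast at h9
        linarith
      have hb' : (0 : ℝ) ≤ ((t'.2 : ℕ) : ℝ) := Nat.cast_nonneg _
      have hi : (((⟨m - 1, Nat.sub_lt hm one_pos⟩ : Fin m) : ℕ) : ℝ) = (m : ℝ) - 1 := by
        show ((m - 1 : ℕ) : ℝ) = (m : ℝ) - 1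
        rw [Nat.cast_sub hm]
        simp
      refine suff ⟨m - 1, Nat.sub_lt hm one_pos⟩ ?_ ?_
      · rw [hi]
        nlinarith
      · rw [hi]
        have h10 := hlt t.1 t'.1 h t'.1.2
        nlinarith
    · refine suff t.2 ?_ ?_
      · nlinarith
      · have h8 : (t.2 : ℕ) + 1 ≤ (t'.2 : ℕ) := h'
        have h9 : (((t.2 : ℕ) + 1 : ℕ) : ℝ) ≤ ((t'.2 : ℕ) : ℝ) := by exact_mod_cast h8
        push_cast at h9
        rw [h]
        nlinarith
  -- all pairs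
  have all : ∀ᶠ δ in 𝓝[>] (0 : ℝ), ∀ t t' : Fin (m ^ (p + 1)) × Fin m,
      ((t.1 : ℕ) < t'.1 ∨ (t.1 = t'.1 ∧ (t.2 : ℕ) < t'.2)) →
      ∃ I : Fin (p + 2) → Fin (p + 2) × Fin m,
        Function.Injective I ∧
        (∑ r, mu p (nd p m δ ∘ I) r * xiL X T ε t (I r)) *
          (∑ r, mu p (nd p m δ ∘ I) r * xiL X T ε t' (I r)) < 0 := by
    refine eventually_all.2 (fun t => eventually_all.2 (fun t' => ?_))
    by_cases h : ((t.1 : ℕ) < t'.1 ∨ (t.1 = t'.1 ∧ (t.2 : ℕ) < t'.2))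
    · filter_upwards [main t t' h] with δ hδ _
      exact hδ
    · exact Eventually.of_forall (fun δ h' => absurd h' h)
  filter_upwards [all] with δ hδ
  intro t t' hne
  have cases : ((t.1 : ℕ) < t'.1 ∨ (t.1 = t'.1 ∧ (t.2 : ℕ) < t'.2)) ∨
      ((t'.1 : ℕ) < t.1 ∨ (t'.1 = t.1 ∧ (t'.2 : ℕ) < t.2)) := by
    rcases lt_trichotomy (t.1 : ℕ) (t'.1 : ℕ) with h | h | h
    · exact Or.inl (Or.inl h)
    · have h1 : t.1 = t'.1 := Fin.ext h
      rcases lt_trichotomy (t.2 : ℕ) (t'.2 : ℕ) with h' | h' | h'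
      · exact Or.inl (Or.inr ⟨h1, h'⟩)
      · exact absurd (Prod.ext h1 (Fin.ext h')) hne
      · exact Or.inr (Or.inr ⟨h1.symm, h'⟩)
    · exact Or.inr (Or.inl h)
  rcases cases with h | h
  · exact hδ t t' h
  · obtain ⟨I, hI, hI'⟩ := hδ t' t h
    exact ⟨I, hI, by rw [mul_comm]; exact hI'⟩

end Pool.Agent.GF
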